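import Pool.Agent.MVO.StmtsC

/-!
# MVO, row TC2: tightness for small supports in class c1 (MP_23468a_al)
-/

namespace Pool.Agent.MVO.H23

open Pool.Agent.Helper14_MV Pool.Agent.Helper2_MV

theorem mem_sp {k : ℕ} {a : ℕ → ℕ} {j : ℕ} : j ∈ sp k a ↔ j ≤ k ∧ a j ≠ 0 := by
  unfold sp
  rw [Finset.mem_filter, Finset.mem_range]
  constructor
  · rintro ⟨h1, h2⟩
    exact ⟨by omega, h2⟩
  · rintro ⟨h1, h2⟩
    exact ⟨by omega, h2⟩

theorem min_eq_of {S : Finset ℕ} {i : ℕ} (hi : i ∈ S) (h : ∀ j ∈ S, i ≤ j) :
    S.min = (i : WithTop ℕ) := by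
  apply le_antisymm (Finset.min_le hi)
  apply Finset.le_min
  intro j hj
  exact WithTop.coe_le_coe.2 (h j hj)

theorem max_eq_of {S : Finset ℕ} {i : ℕ} (hi : i ∈ S) (h : ∀ j ∈ S, j ≤ i) :
    S.max = (i : WithBot ℕ) := by
  apply le_antisymm _ (Finset.le_max hi)
  apply Finset.max_le
  intro j hj
  exact WithBot.coe_le_coe.2 (h j hj)

/-- a set with at most two elements is given by its ends -/
theorem eq_pair {S : Finset ℕ} (hS : S.Nonempty) (hc : S.card ≤ 2) :
    S = {S.min' hS, S.max' hS} := by
  have hsub : ({S.min' hS, S.max' hS} : Finset ℕ) ⊆ S := by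
    intro x hx
    rw [Finset.mem_insert, Finset.mem_singleton] at hx
    rcases hx with rfl | rfl
    · exact S.min'_mem hS
    · exact S.max'_mem hS
  by_cases h : S.min' hS = S.max' hS
  · ext x
    constructor
    · intro hx
      have h1 := S.min'_le x hx
      have h2 := S.le_max' x hx
      rw [Finset.mem_insert, Finset.mem_singleton]
      left
      omega
    · intro hx
      exact hsub hx
  · symm
    apply Finset.eq_of_subset_of_card_le hsub
    rw [Finset.card_pair h]
    exact hc

theorem eq_of_ends {S S' : Finset ℕ} (hc : S.card ≤ 2) (hc' : S'.card ≤ 2)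
    (hmin : S.min = S'.min) (hmax : S.max = S'.max) : S = S' := by
  by_cases hS : S.Nonempty
  · have hS' : S'.Nonempty := by
      rw [Finset.nonempty_iff_ne_empty]
      rintro rfl
      rw [Finset.min_empty, Finset.min_eq_top] at hmin
      exact hS.ne_empty hmin
    rw [eq_pair hS hc, eq_pair hS' hc']
    have e1 : S.min' hS = S'.min' hS' := by
      have h1 := Finset.coe_min' hS
      have h2 := Finset.coe_min' hS'
      rw [hmin, ← h2] at h1
      exact WithTop.coe_injective h1
    have e2 : S.max' hS = S'.max' hS' := by
      have h1 := Finset.coe_max' hS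
      have h2 := Finset.coe_max' hS'
      rw [hmax, ← h2] at h1
      exact WithBot.coe_injective h1
    rw [e1, e2]
  · rw [Finset.not_nonempty_iff_eq_empty] at hS
    subst hS
    rw [Finset.min_empty] at hmin
    exact (Finset.min_eq_top.1 hmin.symm).symm

theorem deg_add (k : ℕ) (x y : ℕ → ℕ) : deg k (fun j => x j + y j) = deg k x + deg k y := by
  unfold deg
  rw [← Finset.sum_add_distrib]

theorem deg_sg {k i d : ℕ} (hi : i ≤ k) : deg k (sg i d) = d := by
  unfold deg sg
  rw [Finset.sum_ite_eq' (Finset.range (k + 1)) i (fun _ => d)]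
  rw [if_pos (by rw [Finset.mem_range]; omega)]

theorem sp_sg {k i d : ℕ} (hi : i ≤ k) (hd : d ≠ 0) : sp k (sg i d) = {i} := by
  ext j
  rw [mem_sp, Finset.mem_singleton]
  unfold sg
  constructor
  · rintro ⟨_, h⟩
    by_contra hne
    rw [if_neg hne] at h
    exact h rfl
  · rintro rfl
    rw [if_pos rfl]
    exact ⟨hi, hd⟩

theorem deg_one {k i : ℕ} {b : ℕ → ℕ} (hi : i ≤ k) (h : ∀ j ≤ k, j ≠ i → b j = 0) :
    deg k b = b i := by
  unfold deg
  rw [Finset.sum_eq_single i]
  · intro j hj hne
    rw [Finset.mem_range] at hj
    exact h j (by omega) hne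
  · intro h1
    rw [Finset.mem_range] at h1
    omega

/-- **TC2** -/
theorem tc2 (_hOaa : OaaStmt) (hOar : OarStmt) (hFcc : FccStmt) : Tc2Stmt := by
  intro ρ hρ k a a' b i hO h2 hdeg hb hi hL hne hc hc'
  obtain ⟨C0, C2, -⟩ := hFcc ρ hρ
  -- rule (R)
  have R : ∀ a'' : ℕ → ℕ, L1 ρ k a a'' → 2 ≤ deg k a'' → ¬ FR k a'' b i → ¬ ZR k a'' b i →
      Bt ρ k a b i := fun a'' h1 h3 h4 h5 => C2 k a a'' b i h1 (C0 k a'' b i h3 hb hi h4 h5)
  obtain ⟨-, hBP, hAP, -⟩ := hOar (FC.ofFIC ρ) k a a' hO h2 hdeg hL hne
  by_cases hZ : ZR k a b i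
  · obtain ⟨hz1, hz2, ha1, hb1⟩ := hZ
    have hq : ∃ q < i, b q ≠ 0 := by
      by_contra hcon
      push Not at hcon
      have := deg_one (b := b) hi (fun j hj hji => by
        rcases Nat.lt_or_ge j i with h | h
        · exact hcon j h
        · exact (hz1 j hj (by omega)).2)
      omega
    have hFR : ∀ a'', ¬ FR k a'' b i := by
      rintro a'' ⟨h, -⟩
      obtain ⟨q, hqi, hq⟩ := hq
      exact hq (h q hqi).2
    by_cases hZ' : ZR k a' b i
    · obtain ⟨hz1', hz2', ha1', _⟩ := hZ'
      have hmax : ∀ {c : ℕ → ℕ}, (∀ j ≤ k, i < j → c j = 0) → c i = 1 →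
          (sp k c).max = (i : WithBot ℕ) := by
        intro c h3 h4
        apply max_eq_of
        · rw [mem_sp]
          exact ⟨hi, by omega⟩
        · intro j hj
          rw [mem_sp] at hj
          by_contra hlt
          exact hj.2 (h3 j hj.1 (by omega))
      have m1 := hmax (fun j hj hij => (hz1 j hj hij).1) ha1
      have m2 := hmax (fun j hj hij => (hz1' j hj hij).1) ha1'
      have hmin : (sp k a).min ≠ (sp k a').min := by
        intro h
        exact hne (eq_of_ends hc hc' h (by rw [m1, m2]))
      have hcard : ¬ ((sp k a).card = 1 ∧ (sp k a').card = 1) := by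
        rintro ⟨h3, h4⟩
        rw [Finset.card_eq_one] at h3 h4
        obtain ⟨x, hx⟩ := h3
        obtain ⟨y, hy⟩ := h4
        apply hne
        rw [hx, hy]
        have e1 : i ∈ sp k a := mem_sp.2 ⟨hi, by omega⟩
        have e2 : i ∈ sp k a' := mem_sp.2 ⟨hi, by omega⟩
        rw [hx, Finset.mem_singleton] at e1
        rw [hy, Finset.mem_singleton] at e2
        rw [← e1, ← e2]
      have hBP' := hBP hmin hcard
      have hs := sp_sg (d := deg k a) hi (by omega)
      have h5 : L1 ρ k a (sg i (deg k a)) := by
        refine hBP' k a (sg i (deg k a)) rfl (deg_sg hi) hc ?_ ?_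
        · rw [hs, Finset.card_singleton]
          omega
        · rw [hs, m1, Finset.max_singleton]
          rfl
      refine R _ h5 (by rw [deg_sg hi]; exact h2) (hFR _) ?_
      rintro ⟨-, -, h6, -⟩
      unfold sg at h6
      rw [if_pos rfl] at h6
      omega
    · exact R a' hL (by omega) (hFR _) hZ'
  · by_cases hF : FR k a b i
    · obtain ⟨hf1, hf2, ha1, hb1, hab⟩ := hF
      have hZR : ∀ a'', ¬ ZR k a'' b i := by
        rintro a'' ⟨h3, -, -, h4⟩
        have := deg_one (b := b) hi (fun j hj hji => by
          rcases Nat.lt_or_ge j i with h | h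
          · exact (hf1 j h).2
          · exact (h3 j hj (by omega)).2)
        omega
      by_cases hF' : FR k a' b i
      · obtain ⟨hf1', hf2', ha1', _, _⟩ := hF'
        have hmin : ∀ {c : ℕ → ℕ}, (∀ j < i, c j = 0) → 1 ≤ c i →
            (sp k c).min = (i : WithTop ℕ) := by
          intro c h3 h4
          apply min_eq_of
          · rw [mem_sp]
            exact ⟨hi, by omega⟩
          · intro j hj
            rw [mem_sp] at hj
            by_contra hlt
            exact hj.2 (h3 j (by omega))
        have m1 := hmin (fun j hj => (hf1 j hj).1) ha1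
        have m2 := hmin (fun j hj => (hf1' j hj).1) ha1'
        have hmax : (sp k a).max ≠ (sp k a').max := by
          intro h
          exact hne (eq_of_ends hc hc' (by rw [m1, m2]) h)
        have hcard : ¬ ((sp k a).card = 1 ∧ (sp k a').card = 1) := by
          rintro ⟨h3, h4⟩
          rw [Finset.card_eq_one] at h3 h4
          obtain ⟨x, hx⟩ := h3
          obtain ⟨y, hy⟩ := h4
          apply hne
          rw [hx, hy]
          have e1 : i ∈ sp k a := mem_sp.2 ⟨hi, by omega⟩
          have e2 : i ∈ sp k a' := mem_sp.2 ⟨hi, by omega⟩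
          rw [hx, Finset.mem_singleton] at e1
          rw [hy, Finset.mem_singleton] at e2
          rw [← e1, ← e2]
        have hAP' := hAP hmax hcard
        by_cases hQ : ∀ j ≤ k, j ≠ i → b j = 0
        · have hbi := deg_one hi hQ
          have hs := sp_sg (d := deg k a) hi (by omega)
          have h5 : L1 ρ k a (sg i (deg k a)) := by
            refine hAP' k a (sg i (deg k a)) rfl (deg_sg hi) hc ?_ ?_
            · rw [hs, Finset.card_singleton]
              omega
            · rw [hs, m1, Finset.min_singleton]
              rfl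
          refine R _ h5 (by rw [deg_sg hi]; exact h2) ?_ (hZR _)
          rintro ⟨-, -, -, -, h6⟩
          unfold sg at h6
          rw [if_pos rfl] at h6
          omega
        · push Not at hQ
          obtain ⟨q, hqk, hqi, hbq⟩ := hQ
          have hiq : i < q := by
            by_contra hlt
            exact hbq (hf1 q (by omega)).2
          let v : ℕ → ℕ := fun j => sg i (deg k a - 1) j + sg q 1 j
          have hv : deg k v = deg k a := by
            have e1 : deg k v = deg k (sg i (deg k a - 1)) + deg k (sg q 1) := deg_add _ _ _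
            rw [e1, deg_sg hi, deg_sg hqk]
            omega
          have hsv : sp k v = {i, q} := by
            ext j
            rw [mem_sp, Finset.mem_insert, Finset.mem_singleton]
            simp only [v, sg]
            constructor
            · rintro ⟨_, h⟩
              by_contra hcon
              push Not at hcon
              rw [if_neg hcon.1, if_neg hcon.2] at h
              exact h rfl
            · rintro (rfl | rfl)
              · rw [if_pos rfl]
                exact ⟨hi, by omega⟩
              · rw [if_pos rfl]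
                exact ⟨hqk, by omega⟩
          have h5 : L1 ρ k a v := by
            refine hAP' k a v rfl hv hc ?_ ?_
            · rw [hsv]
              exact Finset.card_le_two
            · rw [m1, hsv]
              symm
              apply min_eq_of (Finset.mem_insert_self ..)
              intro j hj
              rw [Finset.mem_insert, Finset.mem_singleton] at hj
              omega
          refine R v h5 (by rw [hv]; exact h2) ?_ (hZR _)
          rintro ⟨-, h6, -⟩
          rcases h6 q hqk hqi with h7 | h7
          · simp only [v, sg, ↓reduceIte, if_neg hqi] at h7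
            omega
          · exact hbq h7
      · exact R a' hL (by omega) hF' (hZR _)
    · exact C0 k a b i h2 hb hi hF hZ

end Pool.Agent.MVO.H23
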