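import Pool.Agent.MVO.StmtsD
import Pool.Agent.Helper81_MVD.MIR
import Pool.Agent.Helper49_MVO.NEA

/-!
# Squad MVO, row HOP: the mirror image of the hypotheses of class Cc (author helper23)
-/

set_option autoImplicit false

namespace Pool.Agent.MVO.H23

open Pool.Agent.MVO Pool.Agent.Helper14_MV Pool.Agent.Helper2_MV

theorem iso2_of_th {β : FIC} (h3 : β ≤ thC3) : Pool.Agent.MVD.Iso2 β := by
  intro l hl
  rw [thC3, le_iso_iff] at h3
  have h1 := h3 _ (mem_I2.2 ⟨2, le_rfl, rfl⟩) (FreeMonoid.ofList l) (by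
    have h2 : β.r (FreeMonoid.ofList [0, 0]) (FreeMonoid.ofList l) := hl
    have e1 : (FreeMonoid.ofList [0, 0] : Word) = lx ^ 2 :=
      Pool.Agent.MVO.H49.ofList_rep 2
    rw [e1] at h2
    exact h2)
  have e1 : (FreeMonoid.ofList [0, 0] : Word) = lx ^ 2 :=
    Pool.Agent.MVO.H49.ofList_rep 2
  rw [← e1] at h1
  exact h1

theorem th_of_iso2 {β : FIC} (h : Pool.Agent.MVD.Iso2 β) : β ≤ thC3 := by
  refine le_thC3 fun w hw => ?_
  have e1 : (FreeMonoid.ofList [0, 0] : Word) = lx ^ 2 :=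
    Pool.Agent.MVO.H49.ofList_rep 2
  have h1 : RR β [0, 0] (FreeMonoid.toList w) := by
    show β.r (FreeMonoid.ofList [0, 0]) w
    rw [e1]
    exact hw
  have h2 := h _ h1
  rw [← e1, ← h2]
  rfl

/-- **HOP** -/
theorem hop (hRvg : RvgStmt) : HopStmt := by
  intro β H
  obtain ⟨_, hmod, hi2, hi3, _, hs2, _, _, _, _, _, _, hff, hzz, _⟩ :=
    Pool.Agent.MVD.H81.mir β
  have hth : FIC.op β ≤ thC3 := th_of_iso2 (hi2 (iso2_of_th H.th))
  have hm : ModF (FIC.op β) := hmod H.md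
  exact ⟨hth, hi3 H.iso, ⟨hs2.2 H.cc.1, hff.2 H.cc.2.2, hzz.2 H.cc.2.1⟩, hm,
    Pool.Agent.MVO.H49.cent_of hth hm, (hRvg β).1 H.g2, (hRvg β).2.2 H.rg⟩

end Pool.Agent.MVO.H23
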