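import Pool.Agent.MVO.StmtsL

/-!
# MVO, row WUW: unbalanced identities between words (MP_23468a_al)
-/

namespace Pool.Agent.MVO.H23

open Pool.Agent.Helper14_MV Pool.Agent.Helper2_MV

/-- substitution by letters is the map of the list -/
theorem flatMap_single (f : ℕ → ℕ) (l : List ℕ) : l.flatMap (fun c => [f c]) = l.map f := by
  induction l with
  | nil => rfl
  | cons a l ih => rw [List.flatMap_cons, ih]; rfl

theorem rr_map {θ : FIC} (f : ℕ → ℕ) {u v : List ℕ} (h : RR θ u v) :
    RR θ (u.map f) (v.map f) := by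
  rw [← flatMap_single, ← flatMap_single]
  exact h.sub _

theorem replicate_flatMap_single (m c x : ℕ) (g : ℕ → List ℕ) (h : g c = [x]) :
    (List.replicate m c).flatMap g = List.replicate m x := by
  induction m with
  | zero => rfl
  | succ m ih =>
    rw [List.replicate_succ, List.flatMap_cons, ih, h]
    rfl

theorem replicate_flatMap_pow (m n c x : ℕ) (g : ℕ → List ℕ) (h : g c = List.replicate n x) :
    (List.replicate m c).flatMap g = List.replicate (m * n) x := by
  induction m with
  | zero => simp
  | succ m ih =>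
    rw [List.replicate_succ, List.flatMap_cons, ih, h, ← List.replicate_add]
    congr 1
    ring

theorem filter_eq_replicate (t : ℕ) (u : List ℕ) :
    u.filter (fun c => decide (c = t)) = List.replicate (u.count t) t := by
  induction u with
  | nil => rfl
  | cons a u ih =>
    by_cases h : a = t
    · subst h
      rw [List.filter_cons_of_pos (by simp), ih, List.count_cons_self, List.replicate_succ]
    · rw [List.filter_cons_of_neg (by simpa using h), ih, List.count_cons_of_ne h]

/-- central powers -/
def CentT (θ : FIC) : Prop :=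
  ∃ K, ∀ m, K ≤ m → RR θ (List.replicate m 0 ++ [1]) (1 :: List.replicate m 0)

theorem nc2_pow {θ : FIC} (hN : NC2 θ) (hC : CentT θ) {n : ℕ}
    (h : RR θ [0] (List.replicate n 0)) : n = 1 := by
  by_contra hn
  apply hN
  have key : ∀ w : List ℕ, RR θ [0] w → RR θ (w ++ [1]) (1 :: w) → RR θ [0, 1] [1, 0] := by
    intro w h1 h2
    have h3 : RR θ ([0] ++ [1]) (w ++ [1]) := h1.append (RR.refl _)
    have h4 : RR θ ([1] ++ w) ([1] ++ [0]) := (RR.refl _).append h1.symm
    exact θ.trans h3 (θ.trans h2 h4)
  obtain ⟨K, hK⟩ := hC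
  rcases Nat.lt_or_ge n 1 with h1 | h1
  · have : n = 0 := by omega
    subst this
    exact key [] h (RR.refl _)
  · have h2 : 2 ≤ n := by omega
    have h3 : ∀ s : ℕ, RR θ [0] (List.replicate (n ^ s) 0) := by
      intro s
      induction s with
      | zero => simpa using RR.refl (β := θ) [0]
      | succ s ih =>
        refine θ.trans ih ?_
        have h4 := h.sub (fun _ => List.replicate (n ^ s) 0)
        rw [replicate_flatMap_pow n (n ^ s) 0 0 (fun _ => List.replicate (n ^ s) 0) rfl] at h4
        rw [pow_succ, Nat.mul_comm]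
        change RR θ _ _
        simpa using h4
    have h5 : K ≤ n ^ K := (Nat.lt_pow_self (by omega : 1 < n)).le
    exact key _ (h3 K) (hK _ h5)

/-- simple letters are simple on both sides -/
theorem simple_of {θ : FIC} (hN : NC2 θ) (hC : CentT θ) {u v : List ℕ} (h : RR θ u v) {t : ℕ}
    (ht : u.count t = 1) : v.count t = 1 := by
  have h1 := h.filter (fun c => decide (c = t))
  rw [filter_eq_replicate, filter_eq_replicate, ht] at h1
  have h2 := h1.sub (fun _ => [0])
  rw [replicate_flatMap_single _ t 0 _ rfl, replicate_flatMap_single _ t 0 _ rfl] at h2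
  exact nc2_pow hN hC h2

/-- congruences without `xy = yx` keep the order of the simple letters -/
theorem keep_seps {θ : FIC} (hN : NC2 θ) (hC : CentT θ) {k : ℕ} {u v : List ℕ} (h : RR θ u v)
    (hu : u.filter (fun c => decide (2 ≤ c ∧ c ≤ k + 1)) = seps k) :
    v.filter (fun c => decide (2 ≤ c ∧ c ≤ k + 1)) = seps k := by
  have h0 : RR θ (seps k) (v.filter (fun c => decide (2 ≤ c ∧ c ≤ k + 1))) := by
    have h1 := h.filter (fun c => decide (2 ≤ c ∧ c ≤ k + 1))
    rwa [hu] at h1
  have hmem : ∀ c ∈ v.filter (fun c => decide (2 ≤ c ∧ c ≤ k + 1)), 2 ≤ c ∧ c ≤ k + 1 := by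
    intro c hc
    have := (List.mem_filter.1 hc).2
    simpa using this
  revert h0 hmem
  generalize v.filter (fun c => decide (2 ≤ c ∧ c ≤ k + 1)) = w
  intro h0 hmem
  have hsorted : (seps k).Pairwise (fun a b => a < b) := List.pairwise_lt_range'
  have hcount : ∀ c, 2 ≤ c → c ≤ k + 1 → w.count c = 1 := by
    intro c h1 h2
    refine simple_of hN hC h0 ?_
    exact List.count_eq_one_of_mem (nodup_seps k) (mem_seps.2 ⟨h1, h2⟩)
  have hperm : w.Perm (seps k) := by
    rw [List.perm_iff_count]
    intro c
    by_cases hc : 2 ≤ c ∧ c ≤ k + 1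
    · rw [hcount c hc.1 hc.2, List.count_eq_one_of_mem (nodup_seps k) (mem_seps.2 hc)]
    · rw [List.count_eq_zero_of_not_mem (fun hm => hc (hmem c hm)),
        List.count_eq_zero_of_not_mem (fun hm => hc (mem_seps.1 hm))]
  have hnod : w.Nodup := hperm.nodup_iff.2 (nodup_seps k)
  have hw : w.Pairwise (fun a b => a < b) := by
    rw [List.pairwise_iff_forall_sublist]
    intro t s hts
    by_contra hlt
    have hne : t ≠ s := by
      have := hnod.sublist hts
      simpa using this
    have hst : s < t := by omega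
    let p : ℕ → Bool := fun c => decide (c = s ∨ c = t)
    have hp1 : [t, s].Sublist (w.filter p) := by
      have h1 := hts.filter p
      have h2 : [t, s].filter p = [t, s] := by
        simp [p]
      rwa [h2] at h1
    have hlen : (w.filter p).length ≤ 2 := by
      have h1 : (w.filter p).Nodup := hnod.filter _
      have h2 : (w.filter p) ⊆ [s, t] := by
        intro c hc
        have := (List.mem_filter.1 hc).2
        simpa [p] using this
      have h3 : (w.filter p).Subperm [s, t] := h1.subperm h2
      simpa using h3.length_le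
    have hp2 : [t, s] = w.filter p := hp1.eq_of_length_le (by simpa using hlen)
    have hp3 : ((seps k).filter p).Perm [t, s] := by
      rw [hp2]
      exact (hperm.filter p).symm
    have hp4 : ((seps k).filter p).Pairwise (fun a b => a < b) := hsorted.filter _
    have hp5 : (seps k).filter p = [s, t] := by
      have h1 : ((seps k).filter p).Perm [s, t] := hp3.trans (List.Perm.swap s t [])
      refine List.Perm.eq_of_pairwise (le := fun a b => a < b) ?_ hp4 ?_ h1
      · intro a b _ _ h2 h3
        omega
      · simpa using hst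
    have h6 := h0.filter p
    rw [hp5, ← hp2] at h6
    have h7 := h6.sub (fun c => if c = s then [0] else [1])
    apply hN
    simpa [Ne.symm hne, hne] using h7
  refine List.Perm.eq_of_pairwise (le := fun a b => a < b) ?_ hw hsorted hperm
  intro a b _ _ h2 h3
  omega

/-- restriction to one letter -/
theorem one_part {θ : FIC} {k : ℕ} {B B' : ℕ → List ℕ} {c : ℕ} (hc : NS k c) (hB : BlkOk k B)
    (hB' : BlkOk k B') (h : RR θ (asm k B) (asm k B')) :
    L1 θ k (fun j => (B j).count c) (fun j => (B' j).count c) := by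
  let p : ℕ → Bool := fun d => decide (d = c ∨ (2 ≤ d ∧ d ≤ k + 1))
  have hp : ∀ d, 2 ≤ d → d ≤ k + 1 → p d = true := by
    intro d h1 h2
    simp only [p, decide_eq_true_iff]
    exact Or.inr ⟨h1, h2⟩
  have hf : ∀ {C : ℕ → List ℕ}, BlkOk k C → (asm k C).filter p =
      asm k (fun j => List.replicate ((C j).count c) c) := by
    intro C hC
    rw [asm_filter p hp]
    apply asm_congr
    intro j hj
    rw [← filter_eq_replicate]
    apply List.filter_congr
    intro d hd
    have := hC j hj d hd
    unfold NS at this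
    simp only [p]
    by_cases h1 : d = c
    · simp [h1]
    · simp only [h1, false_or]
      simpa using this
  have h1 := h.filter p
  rw [hf hB, hf hB'] at h1
  have hb : ∀ a : ℕ → ℕ, BlkOk k (fun j => List.replicate (a j) c) := by
    intro a j _ d hd
    rw [List.eq_of_mem_replicate hd]
    exact hc
  have h2 := rr_sub θ (fun _ => [0]) (hb _) (hb _) h1
  have e : ∀ (m : ℕ), (List.replicate m c).flatMap (fun _ => [0]) = List.replicate m 0 :=
    fun m => replicate_flatMap_single m c 0 _ rfl
  unfold L1 mw
  simpa only [e] using h2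

/-- the last block of a word -/
theorem asm_last (k : ℕ) (B : ℕ → List ℕ) : ∃ w : List ℕ, asm k B = w ++ B k ∧
    ∀ c, NS k c → (∀ j < k, c ∉ B j) → c ∉ w := by
  cases k with
  | zero => exact ⟨[], rfl, fun c _ _ => by simp⟩
  | succ k =>
    refine ⟨asm k B ++ [k + 2], by simp [asm], ?_⟩
    intro c hc hj hmem
    rw [List.mem_append, mem_asm] at hmem
    rcases hmem with (h | ⟨j, h1, h2⟩) | h
    · exact hc ⟨h.1, by omega⟩
    · exact hj j (by omega) h2
    · rw [List.mem_singleton] at h
      exact hc ⟨by omega, by omega⟩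

theorem gb_append (n : ℕ → ℕ) (D E : List ℕ) : gb n (D ++ E) = gb n D ++ gb n E := by
  unfold gb
  rw [List.flatMap_append]

theorem not_mem_gb {n : ℕ → ℕ} {D : List ℕ} {c : ℕ} (h : c ∉ D ∨ n c = 0) : c ∉ gb n D := by
  unfold gb
  rw [List.mem_flatMap]
  rintro ⟨d, hd, hc⟩
  rw [List.mem_replicate] at hc
  obtain ⟨h1, h2⟩ := hc
  subst h2
  rcases h with h | h
  · exact h hd
  · exact h1 h

theorem centT_of {β θ : FIC} (hβ : β ≤ θ) (h : Cent β) : CentT θ := by
  obtain ⟨K, hK⟩ := h
  exact ⟨K, fun m hm => hβ _ _ (hK m hm)⟩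

/-- the hypothesis on central powers in `WU1` -/
theorem cent_fc {θ : FIC} (hC : CentT θ) :
    ∃ K, ∀ m, K ≤ m → (FC.ofFIC θ).R 1 (v2 m 0) (v2 0 m) := by
  obtain ⟨K, hK⟩ := hC
  refine ⟨K, fun m hm => ?_⟩
  have h := (hK m hm).sub (fun c => if c = 0 then [0] else [2])
  rw [List.flatMap_append, List.flatMap_cons, List.flatMap_cons] at h
  have h' : (List.replicate m 0).flatMap (fun c => if c = 0 then [0] else [2]) =
      List.replicate m 0 := replicate_flatMap_single m 0 0 _ (by simp)
  rw [h'] at h
  simp only [one_ne_zero, if_false] at h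
  change RR θ (mw 1 (v2 m 0)) (mw 1 (v2 0 m))
  unfold mw
  simpa [asm, v2] using h

/-- `WU1` for the congruence `θ` -/
theorem wu1_all (hA : WuaStmt) (hB : WubStmt) (hC : WucStmt) (hD : WudStmt) {β θ : FIC}
    (hβ : β ≤ θ) (hO : OO β) (hc : CentT θ) {k : ℕ} {a b : ℕ → ℕ} (h2 : 2 ≤ deg k a)
    (hne : deg k a ≠ deg k b) (h : L1 θ k a b) :
    (∀ j ≤ k, L1 θ k a (sg j (deg k a))) ∧ L1 θ 1 (v2 (deg k a) 0) (v2 0 (deg k a)) := by
  have hle : ∀ a b, L1 β 1 a b → L1 θ 1 a b := fun a b h => hβ _ _ h
  have hcen := cent_fc hc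
  rcases hO with h1 | h1 | h1 | h1
  · exact hA (FC.ofFIC θ) (hle _ _ h1) hcen k a b h2 hne h
  · exact hB (FC.ofFIC θ) (hle _ _ h1) hcen k a b h2 hne h
  · exact hC (FC.ofFIC θ) (hle _ _ h1) hcen k a b h2 hne h
  · exact hD (FC.ofFIC θ) ⟨hle _ _ h1.1, hle _ _ h1.2⟩ hcen k a b h2 hne h

/-- a power which commutes with one letter is central -/
theorem central_of {θ : FIC} {d : ℕ} (h : L1 θ 1 (v2 d 0) (v2 0 d)) (c : ℕ) (w : List ℕ) :
    RR θ (List.replicate d c ++ w) (w ++ List.replicate d c) := by
  have h1 : RR θ (List.replicate d 0 ++ [2]) ([2] ++ List.replicate d 0) := by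
    unfold L1 mw at h
    simpa [asm, v2] using h
  have h2 := h1.sub (fun e => if e = 0 then [c] else w)
  rw [List.flatMap_append, List.flatMap_append,
    replicate_flatMap_single d 0 c (fun e => if e = 0 then [c] else w) (by simp)] at h2
  simpa using h2

/-- moving a letter to the end: words in blocks -/
theorem move_end {β θ : FIC} (hβ : β ≤ θ) (hAln : AlnStmt) (hG : Gath β) {k : ℕ}
    {B : ℕ → List ℕ} (hB : BlkOk k B) (hm : ∀ j ≤ k, ∀ c ∈ B j, 2 ≤ deg k (fun j => (B j).count c))
    {c : ℕ} (hc : NS k c) (hcB : c ∈ asm k B)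
    (h1 : L1 θ k (fun j => (B j).count c) (sg k (deg k (fun j => (B j).count c))))
    (h2 : L1 θ 1 (v2 (deg k (fun j => (B j).count c)) 0) (v2 0 (deg k (fun j => (B j).count c)))) :
    RR θ (asm k B) ((asm k B).filter (fun d => d ≠ c) ++
      List.replicate (deg k (fun j => (B j).count c)) c) := by
  revert h1 h2
  generalize hd : deg k (fun j => (B j).count c) = d
  intro h1 h2
  classical
  let X : List ℕ := ((asm k B).filter (fun c => decide (NS k c))).dedup
  have hX : ∀ e, e ∈ X ↔ e ∈ asm k B ∧ NS k e := by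
    intro e
    simp only [X, List.mem_dedup, List.mem_filter, decide_eq_true_iff]
  have hX2 : ∀ e ∈ X, ∃ j ≤ k, e ∈ B j := by
    intro e he
    obtain ⟨h3, h4⟩ := (hX e).1 he
    rw [mem_asm] at h3
    rcases h3 with h3 | h3
    · exact absurd h3 h4
    · exact h3
  obtain ⟨D, hD, hr⟩ := hG k B X hB (List.nodup_dedup _) (fun e he => ((hX e).1 he).2)
    (fun j hj e he => (hX e).2 ⟨mem_asm.2 (Or.inr ⟨j, hj, he⟩), hB j hj e he⟩)
    (fun e he => by
      obtain ⟨j, hj, h3⟩ := hX2 e he
      exact hm j hj e h3)
  have hcX : c ∈ X := (hX c).2 ⟨hcB, hc⟩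
  have h3 := hAln θ k X (fun j c => (B j).count c) D (List.nodup_dedup _) hD c hcX (sg k d) h1
  revert h3
  generalize hn' : (fun j => Function.update ((fun j c => (B j).count c) j) c (sg k d j)) = n'
  intro h3
  have hn'c : ∀ j, n' j c = sg k d j := by
    intro j
    rw [← hn']
    simp
  have h4 : RR θ (asm k B) (gw k n' D) := θ.trans (hβ _ _ hr) h3
  obtain ⟨w1, hw1, hw2⟩ := asm_last k (fun j => gb (n' j) (D j))
  have hcD : c ∈ D k := (hD k).mem_iff.2 hcX
  obtain ⟨Z1, Z2, hZ⟩ := List.append_of_mem hcD
  have hnod : (D k).Nodup := (hD k).nodup_iff.2 (List.nodup_dedup _)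
  rw [hZ] at hnod
  have hZ1 : c ∉ Z1 := by
    intro hmem
    exact (List.disjoint_of_nodup_append hnod) hmem (List.mem_cons_self ..)
  have hZ2 : c ∉ Z2 := by
    have h5 := (List.nodup_append.1 hnod).2.1
    exact (List.nodup_cons.1 h5).1
  have hsg : sg k d k = d := by simp [sg]
  have hlast : gb (n' k) (D k) = gb (n' k) Z1 ++ (List.replicate d c ++ gb (n' k) Z2) := by
    rw [hZ, gb_append]
    congr 1
    change (c :: Z2).flatMap _ = _
    rw [List.flatMap_cons, hn'c, hsg]
    rfl
  have hgw : gw k n' D = (w1 ++ gb (n' k) Z1) ++ (List.replicate d c ++ gb (n' k) Z2) := by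
    unfold gw
    rw [hw1, hlast]
    simp only [List.append_assoc]
  have hA : c ∉ w1 ++ gb (n' k) Z1 := by
    rw [List.mem_append]
    rintro (h5 | h5)
    · refine hw2 c hc ?_ h5
      intro j hj
      refine not_mem_gb (Or.inr ?_)
      rw [hn'c]
      unfold sg
      rw [if_neg (by omega)]
    · exact not_mem_gb (Or.inl hZ1) h5
  have hB2 : c ∉ gb (n' k) Z2 := not_mem_gb (Or.inl hZ2)
  rw [hgw] at h4
  revert h4 hA hB2
  generalize w1 ++ gb (n' k) Z1 = W1
  generalize gb (n' k) Z2 = W2
  intro h4 hA hB2
  have h5 : RR θ (asm k B) ((W1 ++ W2) ++ List.replicate d c) := by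
    refine θ.trans h4 ?_
    have h6 := (RR.refl (β := θ) W1).append (central_of h2 c W2)
    rw [List.append_assoc]
    exact h6
  have hfil : ∀ l : List ℕ, c ∉ l → l.filter (fun d => d ≠ c) = l := by
    intro l hl
    rw [List.filter_eq_self]
    intro a ha
    simp only [ne_eq, decide_not, Bool.not_eq_eq_eq_not, Bool.not_true, decide_eq_false_iff_not]
    rintro rfl
    exact hl ha
  have hrep : (List.replicate d c).filter (fun d => d ≠ c) = [] := by
    rw [List.filter_eq_nil_iff]
    intro a ha
    rw [List.eq_of_mem_replicate ha]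
    simp
  have h7 := h4.filter (fun d => decide (d ≠ c))
  rw [List.filter_append, List.filter_append, hfil W1 hA, hfil W2 hB2, hrep,
    List.nil_append] at h7
  exact θ.trans h5 (h7.symm.append (RR.refl _))

theorem map_filter_ne (π : Equiv.Perm ℕ) (u : List ℕ) (c : ℕ) :
    (u.map π).filter (fun d => d ≠ π c) = (u.filter (fun d => d ≠ c)).map π := by
  induction u with
  | nil => rfl
  | cons a u ih =>
    by_cases h : a = c
    · subst h
      rw [List.map_cons, List.filter_cons_of_neg (by simp), List.filter_cons_of_neg (by simp), ih]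
    · rw [List.map_cons, List.filter_cons_of_pos (by simpa using h),
        List.filter_cons_of_pos (by simpa using h), ih, List.map_cons]

/-- **WUW** -/
theorem wuw (hCom : ComStmt) (hRen : RenStmt) (hAln : AlnStmt) (hA : WuaStmt) (hB : WubStmt)
    (hC : WucStmt) (hD : WudStmt) : WuwStmt := by
  intro β hO hCent hG θ hβ u v c huv hne
  have hCT : CentT θ := centT_of hβ hCent
  by_cases h0 : u.count c = 0
  · rw [h0, List.replicate_zero, List.append_nil]
    have : u.filter (fun d => decide (d ≠ c)) = u := by
      rw [List.filter_eq_self]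
      intro a ha
      have hc : c ∉ u := List.count_eq_zero.1 h0
      simp only [ne_eq, decide_not, Bool.not_eq_eq_eq_not, Bool.not_true,
        decide_eq_false_iff_not]
      rintro rfl
      exact hc ha
    rw [this]
    exact RR.refl _
  by_cases hN : RR θ [0, 1] [1, 0]
  · refine hCom θ _ _ hN ?_
    intro e
    rw [List.count_append]
    by_cases he : e = c
    · subst he
      have h7 : (u.filter (fun d => decide (d ≠ e))).count e = 0 := by
        refine List.count_eq_zero_of_not_mem (fun hm => ?_)
        have := (List.mem_filter.1 hm).2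
        simp at this
      rw [List.count_replicate_self, h7, Nat.zero_add]
    · rw [List.count_filter (by simpa using he), List.count_replicate, if_neg (by
        simpa using (Ne.symm he)), Nat.add_zero]
  have h2 : 2 ≤ u.count c := by
    by_contra hlt
    have h1 : u.count c = 1 := by omega
    have := simple_of hN hCT huv h1
    omega
  obtain ⟨k, π, B, hu, hBk, hm⟩ := hRen u
  have huv' : RR θ (u.map π) (v.map π) := rr_map π huv
  have hv1 : (v.map π).filter (fun c => decide (2 ≤ c ∧ c ≤ k + 1)) = seps k := by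
    refine keep_seps hN hCT huv' ?_
    rw [hu]
    exact filter_sep hBk
  obtain ⟨B', hB', hv⟩ := dec hv1
  have hB'k : BlkOk k B' := fun j _ c hc => hB' j c hc
  rw [hu, hv] at huv'
  have hcu : (asm k B).count (π c) = u.count c := by
    rw [← hu]
    exact List.count_map_of_injective u π π.injective c
  have hcv : (asm k B').count (π c) = v.count c := by
    rw [← hv]
    exact List.count_map_of_injective v π π.injective c
  have hns : NS k (π c) := by
    intro hs
    have := count_sep hBk hs.1 hs.2
    omega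
  have hdu : deg k (fun j => (B j).count (π c)) = u.count c := by
    rw [← count_asm hns, hcu]
  have hdv : deg k (fun j => (B' j).count (π c)) = v.count c := by
    rw [← count_asm hns, hcv]
  have hL := one_part hns hBk hB'k huv'
  obtain ⟨h3, h4⟩ := wu1_all hA hB hC hD hβ hO hCT (by rw [hdu]; exact h2)
    (by rw [hdu, hdv]; exact hne) hL
  have hmem : π c ∈ asm k B := by
    rw [← List.count_pos_iff]
    omega
  have h5 := move_end hβ hAln hG hBk hm hns hmem (h3 k (le_refl k)) h4
  rw [hdu, ← hu, map_filter_ne] at h5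
  have h6 := rr_map (π⁻¹ : Equiv.Perm ℕ) h5
  rw [List.map_append, List.map_map, List.map_map, List.map_replicate] at h6
  have e : ((π⁻¹ : Equiv.Perm ℕ) : ℕ → ℕ) ∘ (π : ℕ → ℕ) = id := by
    funext x
    simp
  rw [e, List.map_id, List.map_id] at h6
  simpa using h6

end Pool.Agent.MVO.H23
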